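import Pool.Agent.R696.RB.Cubic
import Pool.Agent.R696.RB.Low
set_option autoImplicit false

/-! The RB-index of the Albert algebra is five. -/

namespace Pool.Agent.Results.MP_d38294_al.RBIndexFive
open Pool.Agent.R696.RB

/-- Rota–Baxter operators of weight zero on the Albert algebra `Albert F = H_3(O)` of Hermitian `3 × 3` matrices over
the split octonions with the product `x * y = (x·y + y·x)/2`. -/
def IsRotaBaxter {F : Type*} [Field F] (R : Albert F →ₗ[F] Albert F) : Prop :=
  ∀ x y : Albert F, R x * R y = R (R x * y + x * R y)

/-- **The RB-index of the Albert algebra over a field of characteristic zero is `5`**: five is the least natural number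
`n` such that `R ^ n = 0` for every Rota–Baxter operator `R` of weight zero. -/
theorem result (F : Type*) [Field F] [CharZero F] :
    IsLeast {n : ℕ | ∀ R : Albert F →ₗ[F] Albert F, IsRotaBaxter R → R ^ n = 0} 5 := by
  constructor
  · intro R hR
    apply LinearMap.ext
    intro x
    have h := IsRB.pow_five alb_deg3 hR x
    simpa [pow_succ] using h
  · intro n hn
    by_contra hlt
    have hlt' : n ≤ 4 := by omega
    have h1 := hn R0 R0_rb
    have h2 : (R0 : Albert F →ₗ[F] Albert F) ^ 4 = 0 := by
      rw [← Nat.sub_add_cancel hlt', pow_add, h1, mul_zero]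
    apply R0_four (F := F)
    have h3 := congrArg (fun f : Albert F →ₗ[F] Albert F => f (mk3 0 0 0 0 (dg 1 0) 0)) h2
    simpa [pow_succ] using h3

end Pool.Agent.Results.MP_d38294_al.RBIndexFive
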